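import Pool.Agent.W969.MC.Curve

/-!
Cliques and monotone circuits: the exponent 2/3, r/(r+1) for uniform hypergraphs, and the trade-off
with the number of NOT gates.

Monotone circuits that decide whether a graph with `n` vertices has a clique with `k` vertices need
size `n ^ (c k)` for all `k` up to `n ^ (2/3 - ε)`, hence `exp (n ^ (2/3 - ε))` for the larger `k`
(`k ≤ (n + 1) / 2`). For `r`-uniform hypergraphs, `2/3` becomes `r/(r+1)`. The bounds hold in a
stronger model: the circuits compute with real numbers, their monotone gates compute arbitrary
nondecreasing real functions of two arguments (Pudlák's model), and there may also be some arbitrary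
further gates, for instance NOT gates. The `freedom` is the product of the numbers (fan-in + 1) over
the further gates, that is `2 ^ t` for `t` NOT gates. The size is at least `n ^ (δ l)` for every
`l ≤ k` with `l ^ (s + 1) max (freedom, n ^ (r - s)) ≤ n ^ (r - ε)` for some `s` from `1` to `r`.
So for graphs and `φ log n` NOT gates, `0 ≤ φ < 2`, the exponent `2/3` becomes
`max ((2 - φ) / 3, min (1/2, 1 - φ/2))`. It is positive for all `φ < 2`; with `2 log n` NOT gates
the model is as powerful as general circuits (Markov, Fischer).

The clique problem with `k = (n + 1) / 2` (rounded down) is `NP`-complete. For graphs, the bound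
`n ^ (c k)` was known (Boolean monotone circuits) for `k ≤ n ^ (1/3 - ε)` (Cavalar, Kumar and
Rossman) and for `k ≤ n ^ (1/2 - ε)` (de Rezende and Vinyals).

The proof: `M` constraints, each on `a` of `m = M / 2` variables with values in an alphabet with `q`
letters, on a sparse expanding hypergraph. The constraint number `i` is an arbitrary set of tuples
`X i`. The function is: is there an assignment of the variables that satisfies all constraints. It
is monotone in the `M q ^ a` bits (is the tuple `σ` in `X i`). It embeds into the clique function: a
constraint becomes `s` groups of vertices, one for each block of `a / s` variables, the vertices of a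
group are the partial tuples; two vertices are compatible if they agree on common variables, and `s`
vertices of one constraint together with `r - s` further vertices (apexes) form a hyperedge if the
joined tuple is in `X i`. So there are `M s q ^ (a / s)` vertices, and `M s` groups. For the further
gates one needs many copies: the vertices of the groups get colours, all first groups the same one,
all second groups the same one, and so on; the `s` colours and the `r - s` apexes tell the copy.
Copies may share vertices and hyperedges, but no hyperedge whose presence can change.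

The circuits are approximated at all thresholds simultaneously by families of partial assignments
with closed supports (a set of variables is closed if few constraints outside it cannot cover too few
new variables). The number of constraints inside a closed support is small compared with its size,
and weighted robust sunflowers (weight `q ^ (a - 3)` for each constraint inside the support) lose
only a factor polynomial in the logarithms; `q` can be as small as `m ^ (O(1) / a)`.
-/

namespace Pool.Agent.Results.MP_8a52c3_lc.MonotoneTwoThirds

/-- A real circuit with the input bits `Inp` and the gates `0, ..., s - 1`. Gate `i` has `w i`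
inputs, namely `a i j`, each an input bit (`0` or `1`) or an earlier gate, and its value on the
input `x` is `val x i`. The gates outside `T` compute nondecreasing functions of at most two real
numbers. The output of a gate `i` in `T` depends in an arbitrary way on the bits that tell whether
`θ i j` is at most the `j`-th input (a NOT gate, for instance). The circuit accepts if the value of
gate `out` is at least `τ`. -/
structure RealCircuit (Inp : Type) where
  s : ℕ
  T : Finset (Fin s)
  w : Fin s → ℕ
  a : (i : Fin s) → Fin (w i) → Inp ⊕ Fin s
  op : (i : Fin s) → (Fin (w i) → ℝ) → ℝ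
  θ : (i : Fin s) → Fin (w i) → ℝ
  val : (Inp → Bool) → Fin s → ℝ
  out : Fin s
  τ : ℝ
  earlier : ∀ i j k, a i j = Sum.inr k → k < i
  mono : ∀ i ∉ T, w i ≤ 2 ∧ Monotone (op i)
  free : ∀ i ∈ T, ∀ z z' : Fin (w i) → ℝ, (∀ j, θ i j ≤ z j ↔ θ i j ≤ z' j) → op i z = op i z'
  spec : ∀ x i, val x i = op i (fun j =>
    Sum.elim (fun p => if x p = true then (1 : ℝ) else 0) (val x) (a i j))

/-- The size: the number of gates plus the number of inputs of the gates in `T`. -/
def RealCircuit.size {Inp : Type} (C : RealCircuit Inp) : ℕ := C.s + ∑ i ∈ C.T, C.w i

/-- The product of the numbers `w i + 1` over the gates in `T`. It is `1` for monotone circuits and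
`2 ^ t` if `T` consists of `t` NOT gates. -/
def RealCircuit.freedom {Inp : Type} (C : RealCircuit Inp) : ℕ := ∏ i ∈ C.T, (C.w i + 1)

/-- The `r`-uniform hypergraph on the vertices `0, ..., n - 1` given by the bits `x` has a clique
with `k` vertices: all `r`-element subsets of some set of `k` vertices are hyperedges. For `r = 2`
this is the clique function of graphs. -/
def HasClique (n r k : ℕ) (x : {e : Finset (Fin n) // e.card = r} → Bool) : Prop :=
  ∃ S : Finset (Fin n), S.card = k ∧ ∀ e : {e : Finset (Fin n) // e.card = r}, e.1 ⊆ S → x e = true

/-- For all `r ≥ 2`, `1 ≤ s ≤ r` and `ε > 0` there are `δ > 0` and `k0` such that for all `n`,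
`k`, `l` with `k0 ≤ l ≤ k ≤ (n + 1) / 2` the following holds. If a real circuit decides whether an
`r`-uniform hypergraph with `n` vertices has a clique with `k` vertices, and its number `freedom`
satisfies `l ^ (s + 1) max (freedom, n ^ (r - s)) ≤ n ^ (r - ε)`, then its size is at least
`n ^ (δ l)`. -/
theorem result (r s : ℕ) (ε : ℝ) (hr : 2 ≤ r) (hs : 1 ≤ s) (hsr : s ≤ r) (hε : 0 < ε) :
    ∃ δ : ℝ, 0 < δ ∧ ∃ k0 : ℕ, ∀ n k l : ℕ, k0 ≤ l → l ≤ k → 2 * k ≤ n + 1 →
      ∀ C : RealCircuit {e : Finset (Fin n) // e.card = r},
        (∀ x, C.τ ≤ C.val x C.out ↔ HasClique n r k x) →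
        (l : ℝ) ^ (s + 1) * max (C.freedom : ℝ) ((n : ℝ) ^ (r - s)) ≤ (n : ℝ) ^ ((r : ℝ) - ε) →
        (n : ℝ) ^ (δ * l) ≤ (C.size : ℝ) := by
  obtain ⟨u, rfl⟩ : ∃ u, r = u + s := ⟨r - s, by omega⟩
  obtain ⟨δ, hδ, k0, H⟩ := Pool.Agent.W969.MC.curve_rand u s hs hr ε hε
  refine ⟨δ, hδ, max k0 1, ?_⟩
  intro n k l hl hlk hkn C ho hF
  have hl1 : 1 ≤ l := (le_max_right _ _).trans hl
  have hnR : (1 : ℝ) ≤ n := by exact_mod_cast (by omega : 1 ≤ n)
  rw [Nat.add_sub_cancel, Nat.cast_add] at hF
  obtain ⟨-, hρ⟩ := H n k l ((le_max_left _ _).trans hl) hlk hkn (C.freedom : ℝ) hF Unit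
    (fun _ => ⟨C.s, C.T, C.w, C.a, C.op, C.θ, C.val, C.out, C.τ, C.earlier, C.mono, C.free,
      C.spec⟩) 0
    (fun x hx => by
      have h1 : {ρ : Unit | Pool.Agent.W969.MC.RC.acc (⟨C.s, C.T, C.w, C.a, C.op, C.θ, C.val,
          C.out, C.τ, C.earlier, C.mono, C.free, C.spec⟩ : Pool.Agent.W969.MC.RC _) x} =
          Set.univ := Set.eq_univ_of_forall fun _ => (ho x).mpr hx
      rw [h1, Set.ncard_univ, Nat.card_eq_fintype_card, Fintype.card_unit, zero_add, Nat.cast_one,
        mul_one]
      exact Real.rpow_le_one_of_one_le_of_nonpos hnR (by linarith))
    (fun x hx => by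
      have h1 : {ρ : Unit | Pool.Agent.W969.MC.RC.acc (⟨C.s, C.T, C.w, C.a, C.op, C.θ, C.val,
          C.out, C.τ, C.earlier, C.mono, C.free, C.spec⟩ : Pool.Agent.W969.MC.RC _) x} =
          ∅ := Set.eq_empty_of_forall_notMem fun _ hh => hx ((ho x).mp hh)
      rw [h1, Set.ncard_empty, Nat.cast_zero, zero_mul])
    (fun _ => le_rfl)
  exact hρ

end Pool.Agent.Results.MP_8a52c3_lc.MonotoneTwoThirds
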