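import Pool.Agent.W115.Mon2.Clause
import Pool.Agent.W115.Mon2.Count
import Pool.Agent.W115.RC.LowerC

/-!
# Monotone (real) circuits and random constraint satisfaction problems: the exact threshold for
every predicate, against planted instances that are only slightly denser

Unsatisfiability is a monotone function of the set of constraints.  Let `P` be any `k`-ary
predicate over `ZMod q` that rejects some vector.  A constraint applies `P` to `k` of the `n`
variables, after adding constants.  Let `exponent P = k - ρ`, where `ρ` is the supremum of the
densities of unsatisfiable instances: the density of an instance is the least ratio of the number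
of variables to the number of constraints over its nonempty parts.

(1) Let `3 k (c + τ) < ε`.  A monotone real circuit with at most `exp (n ^ c)` gates (a gate is any
nondecreasing real function of at most `2 n ^ τ` earlier gates; AND and OR are the case of the
minimum and the maximum of two values) which rejects a noticeable fraction of the planted instances
with about `n ^ k / s` constraints (choose an assignment at random and keep each satisfied
constraint with probability `1 / s`) rejects almost all random instances with `m` constraints, if
`m ≤ n ^ (exponent P - ε)` and `m s ≤ n ^ (k - ε)`.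

(2), (3) Both conditions are sharp.  For `m ≥ n ^ (exponent P + ε)` there is a monotone (Boolean)
circuit of polynomial size that rejects all satisfiable instances and accepts nearly all random ones.  For
`m s ≥ n ^ (k + ε)`, where the random instance is denser than the planted one, a single
disjunction of inputs tells them apart.

(4) `exponent P ≤ k - 1 / (q - 1)` for every `P`, with equality for the predicate `x ≠ 0` (for
`q = 2` this is `k`-SAT, with exponent `k - 1`); `exponent P ≥ c / 2` when every assignment of
fewer than `c` coordinates can be completed to an accepted one; and the exponent of a linear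
equation in `k` variables is `k / 2`.

For `k`-SAT, (1) says for instance that for all `m ≤ n ^ (k - 1 - ε)` monotone circuits of
subexponential size cannot distinguish random formulas with `m` clauses from random planted
formulas with `n ^ ε m` clauses, or from the set of all clauses true under a random assignment.
This is Feige's hypothesis for monotone circuits, for every constant width (Hrubes and Pudlak
proved such a bound for `k`-CNFs with `k` tending to infinity), and it extends far into the range
`m ≥ n ^ (k / 2 + ε)` in which (non-monotone) spectral algorithms refute random formulas.  The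
denser planted instances are the limit of what monotone circuits can be asked for: with a
threshold gate, monotone circuits on instances with exactly `m` constraints are as powerful as all
circuits, so (1) with planted instances of the same density as the random ones would be a lower
bound for general circuits, and would give P ≠ NP.

Proof of (1).  Razborov's method of approximations, where a gate is approximated by a chain of
families `A` of small sets of constraints, one for each threshold, closed under: if nearly all
planted instances that contain `ψ₀` contain a member of `A`, then `ψ₀` is in `A`.  All families of a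
chain together have as few minimal members as a single one.  A sunflower lemma for sets of constraints shows that a closed
family has at most `(n ^ (o (1)) (n ^ ρ + s)) ^ j` minimal members with `j` constraints.  In a
larger family choose a set of constraints `ψ₀` and a set of variables `Z` that are contained in too
many members.  In nearly all of these members every set of `t` further constraints has at least
`ρ' t` variables outside `Z` (`ρ' > ρ`), and then any assignment of `Z` extends to an assignment
that satisfies the member: otherwise the copies of the member for all assignments of `Z`, glued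
along `Z`, would be an unsatisfiable instance of density `ρ'`.  A second moment argument in
disjoint random blocks of variables and constraints shows that the planted instances which contain
`ψ₀` but no member are an exponentially small fraction.

Proof of (2): second moment for the number of copies of a fixed unsatisfiable instance.  Proof of
(4): tree-like unsatisfiable instances obtained by splitting clauses, and Hall's theorem.
-/

set_option autoImplicit false

namespace Pool.Agent.Results.MP_8a52c3_lc.RandomCspMonotone

open Filter Pool.Agent.W115.Mon Pool.Agent.W115.Mon2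
open Pool.Agent.W115.RC (RealCircuit)

/-- Monotone real circuits on random instances of a constraint satisfaction problem. -/
theorem result (q k : ℕ) [NeZero q] (hk : 2 ≤ k) (P : (Fin k → ZMod q) → Prop)
    (hP : ∃ x, ¬ P x) :
    (∀ ε c τ : ℝ, 0 < c → 0 ≤ τ → 3 * k * (c + τ) < ε →
      ∀ᶠ n : ℕ in atTop, ∀ s m d : ℕ, 1 ≤ s → (m : ℝ) ≤ (n : ℝ) ^ (exponent P - ε) →
        (m : ℝ) * s ≤ (n : ℝ) ^ (k - ε) → (d : ℝ) ≤ 2 * (n : ℝ) ^ τ →
        ∀ K : RealCircuit (Con q n k) d, (K.size : ℝ) ≤ Real.exp ((n : ℝ) ^ c) →
          Real.exp (-(n : ℝ) ^ c) * Nat.card ((Fin n → ZMod q) × (Con q n k → Fin s)) <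
            (Nat.card {p : (Fin n → ZMod q) × (Con q n k → Fin s) //
              ¬ K.Accepts (planted P p.1 p.2)} : ℝ) →
          (Nat.card {f : Fin m → Con q n k // K.Accepts (Finset.univ.image f)} : ℝ) ≤
            (n : ℝ) ^ (-((ε - 3 * k * (c + τ)) / 2)) * Nat.card (Fin m → Con q n k)) ∧
    (∀ ε : ℝ, 0 < ε → ∃ d : ℕ, ∀ᶠ n : ℕ in atTop, ∃ K : MonotoneCircuit (Con q n k),
      K.size ≤ n ^ d ∧ (∀ x : Finset (Con q n k), ¬ Unsat P x → ¬ K.Accepts x) ∧
      ∀ m : ℕ, (n : ℝ) ^ (exponent P + ε) ≤ m →
        (Nat.card {f : Fin m → Con q n k // ¬ K.Accepts (Finset.univ.image f)} : ℝ) ≤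
          Real.exp (-(n : ℝ) ^ (ε / 4)) * Nat.card (Fin m → Con q n k)) ∧
    (∀ ε : ℝ, 0 < ε → ∀ᶠ n : ℕ in atTop, ∀ s m : ℕ, (n : ℝ) ^ ε ≤ s →
      (n : ℝ) ^ (k + ε) ≤ (m : ℝ) * s →
      ∃ K : MonotoneCircuit (Con q n k), K.size ≤ n ^ (k + 1) ∧
        (Nat.card {p : (Fin n → ZMod q) × (Con q n k → Fin s) //
            K.Accepts (planted P p.1 p.2)} : ℝ) ≤
          (n : ℝ) ^ (-(ε / 2)) * Nat.card ((Fin n → ZMod q) × (Con q n k → Fin s)) ∧
        (Nat.card {f : Fin m → Con q n k // ¬ K.Accepts (Finset.univ.image f)} : ℝ) ≤
          Real.exp (-(n : ℝ) ^ (ε / 3)) * Nat.card (Fin m → Con q n k)) ∧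
    (2 ≤ q → exponent P ≤ k - 1 / ((q : ℝ) - 1) ∧
      exponent (nonzero q k) = k - 1 / ((q : ℝ) - 1) ∧ exponent (linear q k) = (k : ℝ) / 2) ∧
    ∀ c : ℕ, Free P c → (c : ℝ) / 2 ≤ exponent P := by
  classical
  refine ⟨?_, ?_, ?_, ?_, fun c hc => exponent_ge hP hc⟩
  · intro ε c τ hc hτ hcε
    set δ : ℝ := ε - 3 * k * (c + τ) with hδ
    have hδpos : 0 < δ := by linarith
    set ρ : ℝ := sSup {ρ : ℝ | HasCore P ρ} + δ / 4 with hρ
    have hρ0 : 0 ≤ ρ := by
      have := sup_nonneg hP
      linarith
    have hcore : ¬ HasCore P ρ := no_core_of_lt (by linarith)
    filter_upwards [real_lower_bound hk P ρ hρ0 hcore (ε - δ / 4) c τ hc hτ (by linarith),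
      eventually_ge_atTop 1] with n hn hn1 s m d hs hm hms hd K hK hrej
    have hnR : (1 : ℝ) ≤ n := by exact_mod_cast hn1
    rw [Nat.card_eq_fintype_card, Nat.card_eq_fintype_card, Fintype.card_subtype] at hrej
    rw [Nat.card_eq_fintype_card, Fintype.card_subtype, Nat.card_eq_fintype_card]
    have hm' : (m : ℝ) ≤ (n : ℝ) ^ ((k : ℝ) - ρ - (ε - δ / 4)) := by
      refine hm.trans (le_of_eq ?_)
      congr 1
      rw [hρ, exponent]
      ring
    have hms' : (m : ℝ) * s ≤ (n : ℝ) ^ ((k : ℝ) - (ε - δ / 4)) :=
      hms.trans (Real.rpow_le_rpow_of_exponent_le hnR (by linarith))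
    rcases hn s hs m hm' hms' d hd K hK with h | h
    · exact absurd hrej (not_lt.mpr h)
    · refine h.trans (mul_le_mul_of_nonneg_right ?_ (Nat.cast_nonneg _))
      apply Real.rpow_le_rpow_of_exponent_le hnR
      linarith
  · intro ε hε
    have hlt : sSup {ρ : ℝ | HasCore P ρ} - ε / 4 < sSup {ρ : ℝ | HasCore P ρ} := by linarith
    obtain ⟨d, hd⟩ := upper_bound (by omega) P _ (core_of_lt hP hlt) (3 * ε / 4) (by positivity)
    refine ⟨d, ?_⟩
    filter_upwards [hd] with n hn
    obtain ⟨K, h1, h2, h3⟩ := hn
    refine ⟨K, h1, h2, fun m hm => ?_⟩
    rw [Nat.card_eq_fintype_card, Fintype.card_subtype, Nat.card_eq_fintype_card]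
    have h4 : (k : ℝ) - (sSup {ρ : ℝ | HasCore P ρ} - ε / 4) + 3 * ε / 4 = exponent P + ε := by
      rw [exponent]; ring
    have h5 : 3 * ε / 4 / 3 = ε / 4 := by ring
    have h6 := h3 m (by rw [h4]; exact hm)
    rw [h5] at h6
    exact h6
  · intro ε hε
    filter_upwards [count_bound (by omega) P ε hε] with n hn s m hs hms
    obtain ⟨K, h1, h2, h3⟩ := hn s hs m hms
    refine ⟨K, h1, ?_, ?_⟩
    · rw [Nat.card_eq_fintype_card, Fintype.card_subtype, Nat.card_eq_fintype_card]
      exact h2
    · rw [Nat.card_eq_fintype_card, Fintype.card_subtype, Nat.card_eq_fintype_card]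
      exact h3
  · intro hq
    exact ⟨exponent_le hP hq hk, nonzero_exponent hq hk, linear_exponent q k hq (by omega)⟩

end Pool.Agent.Results.MP_8a52c3_lc.RandomCspMonotone
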