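import Pool.Agent.W901.AT.Cov

/-!
# A square-root law for the prediction of the answers to `NP` queries, and `P = NP`

Polynomial time is Mathlib's `Turing.TM2ComputableInPolyTime`, for functions on bit strings.

A set `A` is `(δ, ε)`-predictable if there are an oracle `X` (an arbitrary set) and a polynomial-time
algorithm asking `X` at most `O(log n)` questions, which computes for every list of `m` questions of
length at most `m ^ ε` about membership in `A` predictions for a nonempty subset of `s` of them (the
algorithm may abstain on all the others) such that the number of right predictions and the number of
wrong predictions differ by at least `m ^ δ * √ s`.  It is fully `δ`-predictable if this holds for all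
lists of questions, of any length, with predictions for all questions.

The theorem: for all `ε > 0` and `0 < δ ≤ 1 / 2`,

`P = NP` iff some `NP`-hard set is `(δ, ε)`-predictable iff every set in `NP` is fully `δ`-predictable,

while for `δ ≤ 0` every set whatsoever is fully `δ`-predictable. So random guessing, whose typical
deviation is `√ s`, is optimal up to the factor `m ^ o(1)` unless `P = NP`.

Proof.  Let some `NP`-hard set be predictable; trying all answers of `X` one gets polynomially many
prediction vectors one of which is good.

1. Single-valued `NP` functions `x ↦ w` have polynomially long candidate lists. The prefixes of `w`
   are found in a search tree. For a parameter `a` modulo a prime `P` the prefixes `v` of length `j`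
   are hashed to elements `hv P a v` which are regarded as the coefficient vectors of polynomials of
   degree `< k` over the field with `p` elements; the question `i < p` asks for the parity of the
   value at `i` of the polynomial belonging to the prefix of `w`. These are `NP` questions. For
   different coefficient vectors the values at `k` points are independent, so by a bound for the
   `k`-th moment a given prediction vector is good for a fraction of at most `k ! / p ^ (2 δ k)` or so
   of all coefficient vectors (abstentions included, since the normalisation is by `√ s`). Hence for
   `k` large enough only few prefixes are compatible with the predictions for all `a`.
2. The vector of the answers to parallel `NP` questions is the value of a single-valued `NP` function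
   once the number of positive answers is known, so it has a short list of candidates.
3. (`Pool.Agent.H251R5.PQ`, the theorem behind `MP_8f56c4_lc.ParallelQueriesCollapse`) Hence
   `P = NP`.

For `δ ≤ 0`: the `2 ^ K ≥ m` Walsh functions on the list are polynomially many vectors; by Parseval
one of them has correlation at least `√ m` with the vector of the answers; the oracle names it.
-/

set_option autoImplicit false

namespace Pool.Agent.Results.MP_8a52c3_lc.SquareRootLaw

open Pool.Agent.NPC Pool.Agent.W901.AT

theorem result (δ ε : ℝ) :
    (0 < δ → δ ≤ 1 / 2 → 0 < ε → List.TFAE
      [∀ L : Set (List Bool), InNP L → InP L,
        ∃ A : Set (List Bool), NPHard A ∧ Predictable δ ε A,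
        ∀ A : Set (List Bool), InNP A → FullyPredictable δ A]) ∧
    (δ ≤ 0 → ∀ A : Set (List Bool), FullyPredictable δ A) :=
  square_root_law δ ε

end Pool.Agent.Results.MP_8a52c3_lc.SquareRootLaw
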