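import Pool.Agent.W896.HP.Sat

/-!
# Satisfiability on machines with a stack: time times space is at least quadratic

The model is a non-uniform nondeterministic machine with `k` two-way heads on the input, a memory
of `log s` bits (`s` nodes) and a stack (pushdown store) of unlimited height; the number of steps
is unlimited too. Deterministic log-space machines of this kind decide exactly the languages in P
(Cook 1971), so that P ≠ NP if and only if the head movement of every such machine for 3-SAT is
unbounded in terms of the logarithms, so to speak: the only resource that is bounded here is the
way `T` of the heads on the input, and the theorem says `T * log s ≥ c M ^ 2` for the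
satisfiability, and likewise for the unsatisfiability, of 3-CNF formulas with `M` clauses. The
way is measured in clauses (the way inside a clause is free).

For machines without a stack such a bound is classical (Cobham 1966). For machines with a stack
the known bounds (David and Papakonstantinou 2010, 2014: `n ^ (1/4 - ε)` passes or space, for a
permuted inner product) come from number-in-hand communication complexity. Here we use the number
on the forehead: the formula is divided into `2 k + 1` files which are far apart. A computation
with little head movement consists of few phases in which every head stays in one file, and it can
be decomposed (`Pool.Agent.W896.HP.PRet.facts`) into few facts of the form: with a hole from the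
node `q'` to the node `p'` there is a derivation from `q` to `p`, whose part before the hole
belongs to one phase and whose part after the hole belongs to another phase. Such a fact depends on
at most `2 k` of the `2 k + 1` files, because the contents of the stack which were produced in one
phase are consumed in the other one. So the accepted inputs are a union of few cylinder
intersections, and the lower bound of Babai, Nisan and Szegedy for the generalised inner product
(`Pool.Agent.H541R2.gip_disc` in the starting files) applies.
-/

set_option autoImplicit false

namespace Pool.Agent.Results.MP_8a52c3_lc.StackTradeoff

open Pool.Agent.H554R2.Cnf Pool.Agent.W896.HP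

/-- For every number `k` of heads there is a constant `D` such that for all `M`, `ℓ`, `T` with
`M ≤ 2 ^ ℓ`, for `Q` the set of the satisfiable, or that of the unsatisfiable, 3-CNF formulas with
`M` clauses and variables named by words of `ℓ` bits, and for all finite families `U r` of
nondeterministic programs with `k` heads and a stack: if no `U r` accepts an input outside `Q`, and
every `w` in `Q` is accepted by at least a `2 ^ (- ⌊M / D⌋)` fraction of the `U r` in a computation
in which the total way of the heads is at most `T`, then some `U r`, with `s` nodes, satisfies
`M ^ 2 ≤ D (T + M) (⌊log₂ s⌋ + 1)`. -/
theorem result (k : ℕ) : ∃ D : ℕ, 0 < D ∧ ∀ (M ℓ T : ℕ), M ≤ 2 ^ ℓ →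
    ∀ (Q : (Idx M ℓ → Bool) → Prop), (Q = Sat3 ∨ Q = fun w => ¬ Sat3 w) →
    ∀ (R : Type) [Fintype R] [Nonempty R] (U : R → Prog (Fin k) (Idx M ℓ)),
      (∀ r w l, (U r).Acc w l → Q w) →
      (∀ w, Q w → Nat.card R ≤ 2 ^ (M / D) *
        Nat.card {r // ∃ l, (U r).Acc w l ∧ travel (fun v => v.1.val) l ≤ T}) →
      ∃ r, M * M ≤ D * ((T + M) * (Nat.log 2 (Fintype.card (U r).State) + 1)) :=
  final k

end Pool.Agent.Results.MP_8a52c3_lc.StackTradeoff
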