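import Pool.Agent.W954.Sav.Final

/-!
# P versus NP and circuits with few NOT gates on thin layers of the cube

Let `L` be a monotone `NP`-complete language, for instance `HalfClique` (does a graph, given by its
adjacency matrix, have a clique that contains at least half of the vertices?). On one slice of the
cube `{0,1}^n` (the inputs with exactly `m` ones) NOT gates are useless for monotone languages
(Berkowitz 1982), and on all inputs `⌈log (n + 1)⌉` NOT gates are as good as any number of them
(Markov 1958, Fischer 1974). So `P = NP` if and only if circuits without NOT gates for `L` on single
slices, or circuits with `⌈log (n + 1)⌉` NOT gates for `L`, can be constructed in polynomial time.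

We determine how far this goes. On `K 2 ^ t` consecutive slices, `t` NOT gates suffice, for every
constant `K`: `P = NP` if and only if circuits with `t` NOT gates that decide `L` on any given
`K 2 ^ t` consecutive slices can be constructed in polynomial time, also for `t = 0` only; and if and
only if circuits for `L` with `⌈log (n + 1)⌉ - c` NOT gates can be constructed in polynomial time
(`c` any constant). But if the constant `K` is replaced by `(log n) ^ 9`, then such circuits do not
exist, unconditionally. So the question whether `P = NP` is the question whether this lower bound
can be extended from polylogarithmic to constant factors `K`; with `log n - 9 log log n - 7` NOT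
gates (or fewer) polynomial size is impossible, with `log n - c` it is equivalent to `P = NP`.

The proof of the upper bound: a function `f` which is monotone, restricted to the slices
`m, ..., m + k` and continued by `0` below and by `1` above these slices, is computed by a circuit
with literals for `f` in which the literal `¬ x i` is replaced by the value at `x - i` of the
function which belongs in the same way to the slices `m, ..., m + k - 1`. (If `f x = 1` this value is
at least `¬ x i`, if `f x = 0` it is at most `¬ x i`.) So `k + 1` slices cost a factor `n ^ k`. The
`2 ^ t` layers of `K` slices each are put together by `t` NOT gates. If `P = NP` the circuits can be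
found in polynomial time (search to decision). The lower bound embeds a small half-clique problem
into a thin layer; for it the lower bound `2 ^ (number of NOT gates) > n / polylog n` holds (the
helper modules `H520R2`, `H560R2` of earlier helpers).
-/

set_option autoImplicit false

namespace Pool.Agent.Results.MP_8a52c3_lc.ThinSlices

open Pool.Agent.NPC Pool.Agent.H520R2.HC Pool.Agent.W954.Sav

/-- (1) For every monotone `NP`-complete language `L` and all constants `k`, `c` the following are
equivalent: `P = NP`; circuits without NOT gates which decide `L` on the inputs of length `n` with
`m` to `m + k` ones can be constructed in polynomial time, given `n` and `m` in unary; circuits with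
at most `t` NOT gates which decide `L` on the inputs of length `n` with at least `m` and less than
`m + (k + 1) 2 ^ t` ones can be constructed in polynomial time, given `n`, `m`, `t` in unary; circuits
with at most `⌈log (n + 1)⌉ - c` NOT gates which decide `L` on all inputs of length `n` can be
constructed in polynomial time. (2) `HalfClique` is a monotone `NP`-complete language. (3) For all
`a` and all large `n`, if `100 * 2 ^ t (log n) ^ 9 ≤ n` and `2 n / 5 ≤ m ≤ n / 2` then every circuit
with at most `t` NOT gates which decides `HalfClique` on the inputs of length `n` with at least `m`
and less than `m + 2 ^ t (log n) ^ 9` ones has more than `n ^ a` gates. -/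
theorem result :
    (∀ L : Set (List Bool), InNP L → NPHard L → MonoLang L → ∀ k c : ℕ, List.TFAE [
      ∀ L', InNP L' → InP L',
      ∃ F : List Bool → List Bool, PolyTime F ∧ ∀ n m, ∃ C : Circuit n,
        F (bits (List.replicate n (), List.replicate m ())) = C.desc ∧ C.nots = 0 ∧
        ∀ x, m ≤ wt x → wt x ≤ m + k → (C.eval x = true ↔ List.ofFn x ∈ L),
      ∃ F : List Bool → List Bool, PolyTime F ∧ ∀ n m t, ∃ C : Circuit n,
        F (bits (List.replicate n (), List.replicate m (), List.replicate t ())) = C.desc ∧
        C.nots ≤ t ∧
        ∀ x, m ≤ wt x → wt x < m + (k + 1) * 2 ^ t → (C.eval x = true ↔ List.ofFn x ∈ L),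
      ∃ F : List Bool → List Bool, PolyTime F ∧ ∀ n, ∃ C : Circuit n,
        F (List.replicate n true) = C.desc ∧ C.nots ≤ Nat.clog 2 (n + 1) - c ∧
        ∀ x, C.eval x = true ↔ List.ofFn x ∈ L]) ∧
    (InNP HalfClique ∧ NPHard HalfClique ∧ MonoLang HalfClique) ∧
    ∀ a : ℕ, ∃ n₀, ∀ n ≥ n₀, ∀ t m, 100 * (2 ^ t * Nat.log 2 n ^ 9) ≤ n →
      2 * n ≤ 5 * m → 2 * m ≤ n → ∀ C : Circuit n, C.nots ≤ t →
      (∀ x, m ≤ wt x → wt x < m + 2 ^ t * Nat.log 2 n ^ 9 →
        (C.eval x = true ↔ List.ofFn x ∈ HalfClique)) → n ^ a < C.size :=
  ⟨fun _ h1 h2 h3 k c => tfae h1 h2 h3 k c,
    ⟨inNP_halfClique, npHard_halfClique, monoLang_halfClique⟩, lower_window⟩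

end Pool.Agent.Results.MP_8a52c3_lc.ThinSlices
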